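import Pool.Agent.Helper10.GT.PfK
import Pool.Agent.PF.Cayley
import Pool.Agent.FD.Main

/-!
# Sums of polynomials in Pfaffians: small shifted spaces

`f` is a sum of `T` terms, each the product of a polynomial of small degree and an arbitrary
polynomial in `a` Pfaffians. The coefficients of degree `D` of `f` with respect to some of the
variables lie in a sum of `T * C(a + D, D)` spaces `h * (span of Pfaffians of order at most
2 m D and their sub-Pfaffians)`, where the multipliers `h` do not depend on the coefficient.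
-/

set_option autoImplicit false

namespace Pool.FunK

open Finset hiding sup ext
open MvPolynomial Pool.PF Pool.Agent.Helper76 Pool.Agent.Helper76.CDET Pool.GT
open scoped ENNReal BigOperators

/-! ### products of Pfaffians -/

section pf
variable {R : Type*} [CommRing R]

/-- the function on two sets of indices given by two matrices -/
def two {s t : ℕ} (A : Matrix (Fin (2 * s)) (Fin (2 * s)) R)
    (B : Matrix (Fin (2 * t)) (Fin (2 * t)) R) :
    Fin (2 * s) ⊕ Fin (2 * t) → Fin (2 * s) ⊕ Fin (2 * t) → R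
  | Sum.inl i, Sum.inl j => A i j
  | Sum.inr i, Sum.inr j => B i j
  | _, _ => 0

theorem exists_pf_mul {s t : ℕ} (A : Matrix (Fin (2 * s)) (Fin (2 * s)) R)
    (B : Matrix (Fin (2 * t)) (Fin (2 * t)) R) :
    ∃ M : Matrix (Fin (2 * (s + t))) (Fin (2 * (s + t))) R,
      (∀ i j, M i j = 0 ∨ (∃ i' j', M i j = A i' j') ∨ ∃ i' j', M i j = B i' j') ∧
      pf (s + t) M = pf s A * pf t B := by
  have e : 2 * (s + t) = 2 * s + 2 * t := by ring
  set f : Fin (2 * (s + t)) → Fin (2 * s) ⊕ Fin (2 * t) :=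
    fun i => Fin.append (fun i => Sum.inl i) (fun j => Sum.inr j) (Fin.cast e i) with hf
  refine ⟨Matrix.of fun i j => two A B (f i) (f j), fun i j => ?_, ?_⟩
  · simp only [Matrix.of_apply]
    rcases f i with i | i <;> rcases f j with j | j
    · right; left; exact ⟨i, j, rfl⟩
    · left; rfl
    · left; rfl
    · right; right; exact ⟨i, j, rfl⟩
  · rw [pf_eq_pfk]
    have h1 : List.ofFn f = List.ofFn (fun i : Fin (2 * s) => (Sum.inl i : Fin (2 * s) ⊕ Fin (2 * t))) ++
        List.ofFn (fun j : Fin (2 * t) => (Sum.inr j : Fin (2 * s) ⊕ Fin (2 * t))) := by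
      rw [← List.ofFn_fin_append]
      exact List.ofFn_congr e _
    rw [h1, pfk_append (two A B) s t _ _ (by
      intro x hx y hy
      obtain ⟨i, rfl⟩ := List.mem_ofFn.1 hx
      obtain ⟨j, rfl⟩ := List.mem_ofFn.1 hy
      rfl) (by simp), ← pf_eq_pfk, ← pf_eq_pfk]
    rfl

end pf

section
variable {K : Type} [Field K] {σ : Type} {a : ℕ}

/-- a Pfaffian of order at most `2 m` with entries of degree at most `δ` -/
def IsPfm (m δ : ℕ) (F : MvPolynomial σ K) : Prop :=
  ∃ s, s ≤ m ∧ ∃ A : Matrix (Fin (2 * s)) (Fin (2 * s)) (MvPolynomial σ K),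
    (∀ p q, (A p q).totalDegree ≤ δ) ∧ F = pf s A

theorem IsPfm.one (δ : ℕ) : IsPfm (K := K) (σ := σ) 0 δ 1 :=
  ⟨0, le_rfl, 0, fun p q => by simp, (pf_zero _).symm⟩

theorem IsPfm.mono {m m' δ : ℕ} (h : m ≤ m') {F : MvPolynomial σ K} (hF : IsPfm m δ F) :
    IsPfm m' δ F := by
  obtain ⟨s, hs, A, hA, rfl⟩ := hF
  exact ⟨s, hs.trans h, A, hA, rfl⟩

theorem IsPfm.mul {m m' δ : ℕ} {F G : MvPolynomial σ K} (hF : IsPfm m δ F) (hG : IsPfm m' δ G) :
    IsPfm (m + m') δ (F * G) := by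
  obtain ⟨s, hs, A, hA, rfl⟩ := hF
  obtain ⟨t, ht, B, hB, rfl⟩ := hG
  obtain ⟨M, hM, h⟩ := exists_pf_mul A B
  refine ⟨s + t, by omega, M, fun p q => ?_, h.symm⟩
  rcases hM p q with h | ⟨i, j, h⟩ | ⟨i, j, h⟩
  · rw [h, totalDegree_zero]; exact Nat.zero_le _
  · rw [h]; exact hA i j
  · rw [h]; exact hB i j

theorem IsPfm.pow {m δ : ℕ} {F : MvPolynomial σ K} (hF : IsPfm m δ F) (n : ℕ) :
    IsPfm (n * m) δ (F ^ n) := by
  induction n with
  | zero =>
    rw [pow_zero, Nat.zero_mul]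
    exact IsPfm.one δ
  | succ n ih =>
    rw [pow_succ, Nat.succ_mul]
    exact ih.mul hF

theorem IsPfm.prod {m δ : ℕ} {ι : Type} (s : Finset ι) (F : ι → MvPolynomial σ K)
    (n : ι → ℕ) (hF : ∀ i, IsPfm m δ (F i)) :
    IsPfm ((∑ i ∈ s, n i) * m) δ (∏ i ∈ s, F i ^ n i) := by
  classical
  induction s using Finset.induction_on with
  | empty =>
    rw [Finset.sum_empty, Finset.prod_empty, Nat.zero_mul]
    exact IsPfm.one δ
  | insert i s hi ih =>
    rw [Finset.sum_insert hi, Finset.prod_insert hi, Nat.add_mul]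
    exact ((hF i).pow (n i)).mul ih

end

/-! ### Taylor expansion -/

section taylor
variable {S : Type} [CommRing S] {Y : Type} {a : ℕ}

/-- all coefficients of degree smaller than `n` vanish -/
def Ord (n : ℕ) (p : MvPolynomial Y S) : Prop := ∀ κ : Y →₀ ℕ, κ.degree < n → coeff κ p = 0

theorem Ord.mul {m n : ℕ} {p q : MvPolynomial Y S} (hp : Ord m p) (hq : Ord n q) :
    Ord (m + n) (p * q) := by
  classical
  intro κ hκ
  rw [coeff_mul]
  refine Finset.sum_eq_zero fun x hx => ?_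
  have hx1 : x.1 + x.2 = κ := Finset.HasAntidiagonal.mem_antidiagonal.1 hx
  have hdeg : x.1.degree + x.2.degree = κ.degree := by rw [← hx1, map_add]
  rcases lt_or_ge x.1.degree m with h | h
  · rw [hp _ h, zero_mul]
  · rw [hq _ (by omega), mul_zero]

theorem Ord.one : Ord 0 (1 : MvPolynomial Y S) := fun _ h => absurd h (Nat.not_lt_zero _)

theorem Ord.pow {p : MvPolynomial Y S} (hp : Ord 1 p) (n : ℕ) : Ord n (p ^ n) := by
  induction n with
  | zero => rw [pow_zero]; exact Ord.one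
  | succ n ih => rw [pow_succ]; exact ih.mul hp

theorem Ord.prod {ι : Type} (s : Finset ι) (p : ι → MvPolynomial Y S) (hp : ∀ i, Ord 1 (p i))
    (n : ι → ℕ) : Ord (∑ i ∈ s, n i) (∏ i ∈ s, p i ^ n i) := by
  classical
  induction s using Finset.induction_on with
  | empty => rw [Finset.sum_empty, Finset.prod_empty]; exact Ord.one
  | insert i s hi ih =>
    rw [Finset.sum_insert hi, Finset.prod_insert hi]
    exact ((hp i).pow (n i)).mul ih

theorem ord_sub {F : MvPolynomial Y S} {c : S} (h : coeff 0 F = c) : Ord 1 (F - C c) := by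
  classical
  intro κ hκ
  have h0 : κ = 0 := by
    rw [← Finsupp.degree_eq_zero_iff]
    omega
  subst h0
  rw [coeff_sub, coeff_C, if_pos rfl, h, sub_self]

/-- **Taylor expansion up to degree `D`.** -/
theorem taylor_trunc (D : ℕ) (P : MvPolynomial (Fin a) S) (F0 : Fin a → S) :
    ∃ Q : MvPolynomial (Fin a) S, (∀ β ∈ Q.support, β.degree ≤ D) ∧
      ∀ F : Fin a → MvPolynomial Y S, (∀ i, coeff 0 (F i) = F0 i) →
        Ord (D + 1) (eval₂ C F P - eval₂ C F Q) := by
  classical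
  set P' : MvPolynomial (Fin a) S := eval₂ C (fun i => X i + C (F0 i)) P with hP'
  set P'' : MvPolynomial (Fin a) S := ∑ α ∈ P'.support.filter (fun α => α.degree ≤ D),
    monomial α (coeff α P') with hP''
  set Q : MvPolynomial (Fin a) S := eval₂ C (fun i => X i - C (F0 i)) P'' with hQ
  have key : ∀ (F : Fin a → MvPolynomial Y S) (G : MvPolynomial (Fin a) S)
      (u : Fin a → MvPolynomial (Fin a) S),
      eval₂ (C : S →+* MvPolynomial Y S) F (eval₂ C u G) =
        eval₂ C (fun i => eval₂ C F (u i)) G := by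
    intro F G u
    have h1 := hom_eval₂ G (C : S →+* MvPolynomial (Fin a) S) (eval₂Hom (C : S →+* MvPolynomial Y S) F) u
    rw [coe_eval₂Hom] at h1
    rw [h1]
    congr 1
    ext s
    simp
  refine ⟨Q, ?_, ?_⟩
  · intro β hβ
    have h1 : Q.totalDegree ≤ D := by
      rw [hQ, hP'']
      rw [eval₂_sum]
      refine totalDegree_finsetSum_le fun α hα => ?_
      rw [Finset.mem_filter] at hα
      rw [eval₂_monomial]
      refine (totalDegree_mul _ _).trans ?_
      rw [totalDegree_C, zero_add]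
      refine le_trans ?_ hα.2
      rw [Finsupp.prod_fintype _ _ (fun _ => pow_zero _), Finsupp.degree_eq_sum]
      refine (totalDegree_finsetProd _ _).trans (Finset.sum_le_sum fun i _ => ?_)
      refine (totalDegree_pow _ _).trans ?_
      have h2 : (X i - C (F0 i) : MvPolynomial (Fin a) S).totalDegree ≤ 1 := by
        refine (totalDegree_sub _ _).trans ?_
        rw [totalDegree_C]
        refine max_le ?_ (Nat.zero_le _)
        rcases subsingleton_or_nontrivial S with hS | hS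
        · have : (X i : MvPolynomial (Fin a) S) = 0 := Subsingleton.elim _ _
          rw [this, totalDegree_zero]
          exact Nat.zero_le _
        · rw [totalDegree_X]
      calc α i * _ ≤ α i * 1 := Nat.mul_le_mul_left _ h2
        _ = α i := Nat.mul_one _
    have h3 := le_totalDegree hβ
    rw [Finsupp.degree_apply]
    exact h3.trans h1
  · intro F hF
    have e1 : eval₂ (C : S →+* MvPolynomial Y S) F Q =
        eval₂ C (fun i => F i - C (F0 i)) P'' := by
      rw [hQ, key]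
      congr 1
      funext i
      rw [eval₂_sub, eval₂_X, eval₂_C]
    have e2 : eval₂ (C : S →+* MvPolynomial Y S) F P =
        eval₂ C (fun i => F i - C (F0 i)) P' := by
      rw [hP', key]
      congr 1
      funext i
      rw [eval₂_add, eval₂_X, eval₂_C]
      ring
    have e3 : P' - P'' = ∑ α ∈ P'.support.filter (fun α => ¬ α.degree ≤ D),
        monomial α (coeff α P') := by
      rw [hP'', sub_eq_iff_eq_add, add_comm, Finset.sum_filter_add_sum_filter_not]
      exact P'.as_sum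
    rw [e1, e2, ← eval₂_sub, e3, eval₂_sum]
    intro κ hκ
    rw [coeff_sum]
    refine Finset.sum_eq_zero fun α hα => ?_
    rw [Finset.mem_filter] at hα
    rw [eval₂_monomial, coeff_C_mul, Finsupp.prod_fintype _ _ (fun _ => pow_zero _)]
    have h4 := Ord.prod Finset.univ (fun i => F i - C (F0 i)) (fun i => ord_sub (hF i)) (fun i => α i)
    rw [← Finsupp.degree_eq_sum] at h4
    rw [h4 κ (by omega), mul_zero]

/-- Taylor expansion of a polynomial of degree at most `e`. -/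
theorem taylor_min (D e : ℕ) (P : MvPolynomial (Fin a) S) (hP : P.totalDegree ≤ e)
    (F0 : Fin a → S) :
    ∃ Q : MvPolynomial (Fin a) S, (∀ β ∈ Q.support, β.degree ≤ min e D) ∧
      ∀ F : Fin a → MvPolynomial Y S, (∀ i, coeff 0 (F i) = F0 i) →
        Ord (D + 1) (eval₂ C F P - eval₂ C F Q) := by
  rcases le_total e D with h | h
  · refine ⟨P, fun β hβ => ?_, fun F _ κ _ => ?_⟩
    · rw [min_eq_left h, Finsupp.degree_apply]
      exact (le_totalDegree hβ).trans hP
    · rw [sub_self, coeff_zero]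
  · rw [min_eq_right h]
    exact taylor_trunc D P F0

end taylor

/-! ### the dimension bound -/

section tower
variable {K : Type} [Field K] {Xt Yt C E : Type} {ι : ℕ → Type}

theorem Wl_map_le {ι' : Type} (h : MvPolynomial Xt K) (g : ι' → MvPolynomial Xt K) (l : ℕ) :
    Pool.SDD.Wl (fun j => h * g j) l = Submodule.map (LinearMap.mulLeft K h) (Pool.SDD.Wl g l) := by
  unfold Pool.SDD.Wl
  rw [Submodule.map_span]
  congr 1
  ext x
  constructor
  · rintro ⟨μ, i, hμ, rfl⟩
    refine ⟨monomial μ 1 * g i, ⟨μ, i, hμ, rfl⟩, ?_⟩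
    rw [LinearMap.mulLeft_apply]
    ring
  · rintro ⟨_, ⟨μ, i, hμ, rfl⟩, rfl⟩
    refine ⟨μ, i, hμ, ?_⟩
    rw [LinearMap.mulLeft_apply]
    ring

/-- the dimension bound for combinations of members of towers, with multipliers which do not
depend on the coefficient -/
theorem tower_boundH [Fintype Xt] [Finite C] [Fintype E] [∀ k, Fintype (ι k)]
    (p : ∀ k, ι k → MvPolynomial E K) (hp : Pool.SDD.Tower p)
    (hml : ∀ k i e, (p k i).degreeOf e ≤ 1)
    {S : Type} [Fintype S] {k D dl nu : ℕ} (hdl : 1 ≤ dl) (Fb : ι k → Finset E)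
    (hr : Pool.SDD.Reduces (p k) Fb)
    (Φ : MvPolynomial (Xt ⊕ Yt) K) (h : S → MvPolynomial Xt K)
    (f : S → MvPolynomial (Xt ⊕ Yt) K)
    (hΦ : ∀ κ : Yt →₀ ℕ, κ.degree = D → coeff κ (Th K Xt Yt Φ) ∈
      Submodule.span K (Set.range fun s => h s * coeff κ (Th K Xt Yt (f s))))
    (A : S → E → MvPolynomial (Xt ⊕ Yt) K) (hA : ∀ t e, (A t e).totalDegree ≤ dl)
    (hf : ∀ t, f t ∈ Pool.SDD.Wl (fun j => aeval (A t) (p (k + D) j)) nu)
    (yk : C → Yt →₀ ℕ) (hyk : ∀ c, (yk c).degree = D) (Q : ℝ≥0∞) (hQ : Q < 1) :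
    Q ^ (nu + D * (dl - 1)) * ((1 - Q) ^ (Fintype.card Xt + 1) *
      ∑' l : ℕ, Q ^ l * (Module.finrank K (Pool.SDD.Wl
        (fun c => coeff (yk c) (Th K Xt Yt Φ)) l) : ℝ≥0∞)) ≤
      Fintype.card S * ∑ j : ι k, (1 - Q ^ dl) ^ (Fb j).card := by
  classical
  set l0 := nu + D * (dl - 1) with hl0
  set g : S → ι k → MvPolynomial Xt K :=
    fun t j => aeval (fun e => eps0 K Xt Yt (A t e)) (p k j) with hg
  have hmem : ∀ c, coeff (yk c) (Th K Xt Yt Φ) ∈
      ⨆ t, Submodule.map (LinearMap.mulLeft K (h t)) (Pool.SDD.Wl (g t) l0) := by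
    intro c
    have h1 : ∀ t, coeff (yk c) (Th K Xt Yt (f t)) ∈ Pool.SDD.Wl (g t) l0 := by
      intro t
      have hft := hf t
      rw [← hyk c] at hft
      obtain ⟨G, hG1, hG2⟩ := Pool.SDD.R2k p hp dl hml hdl k nu (A t) (hA t) (yk c) (f t) hft
      have h2 : coeff (yk c) (Th K Xt Yt (f t)) = G := by
        ext u
        rw [coeff_Th, hG2 u, Finsupp.embDomain_eq_mapDomain, Finsupp.embDomain_eq_mapDomain]
        rfl
      rw [h2]
      rw [hyk c] at hG1
      exact hG1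
    refine (Submodule.span_le.2 ?_) (hΦ (yk c) (hyk c))
    rintro _ ⟨t, rfl⟩
    exact Submodule.mem_iSup_of_mem t (Submodule.mem_map.2 ⟨_, h1 t, rfl⟩)
  have hle : ∀ l, Pool.SDD.Wl (fun c => coeff (yk c) (Th K Xt Yt Φ)) l ≤
      ⨆ t, Submodule.map (LinearMap.mulLeft K (h t)) (Pool.SDD.Wl (g t) (l + l0)) := by
    intro l
    conv_lhs => unfold Pool.SDD.Wl
    rw [Submodule.span_le]
    rintro _ ⟨μ, c, hμ, rfl⟩
    have h3 : (LinearMap.mulLeft K (monomial μ (1:K))) (coeff (yk c) (Th K Xt Yt Φ)) ∈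
        Submodule.map (LinearMap.mulLeft K (monomial μ (1:K)))
          (⨆ t, Submodule.map (LinearMap.mulLeft K (h t)) (Pool.SDD.Wl (g t) l0)) :=
      Submodule.mem_map_of_mem (hmem c)
    rw [Submodule.map_iSup] at h3
    have h4 : (⨆ t, Submodule.map (LinearMap.mulLeft K (monomial μ (1:K)))
        (Submodule.map (LinearMap.mulLeft K (h t)) (Pool.SDD.Wl (g t) l0))) ≤
        ⨆ t, Submodule.map (LinearMap.mulLeft K (h t)) (Pool.SDD.Wl (g t) (l + l0)) := by
      apply iSup_mono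
      intro t
      rw [Submodule.map_le_iff_le_comap, Submodule.map_le_iff_le_comap]
      intro x hx
      refine Submodule.mem_comap.2 (Submodule.mem_comap.2 (Submodule.mem_map.2
        ⟨monomial μ 1 * x, Pool.SDD.monomial_mul_mem_Wl hμ hx, ?_⟩))
      simp only [LinearMap.mulLeft_apply]
      ring
    exact h4 h3
  have hrank : ∀ l, Module.finrank K (Pool.SDD.Wl (fun c => coeff (yk c) (Th K Xt Yt Φ)) l) ≤
      ∑ t, Module.finrank K (Pool.SDD.Wl (g t) (l + l0)) := by
    intro l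
    refine (Submodule.finrank_mono (hle l)).trans ?_
    refine (Pool.FD.finrank_iSup_le' _).trans ?_
    exact Finset.sum_le_sum fun t _ => Submodule.finrank_map_le _ _
  have hU : ∀ t, (1 - Q) ^ (Fintype.card Xt + 1) *
      ∑' l, Q ^ l * (Module.finrank K (Pool.SDD.Wl (g t) l) : ℝ≥0∞) ≤
      ∑ j : ι k, (1 - Q ^ dl) ^ (Fb j).card := fun t =>
    Pool.SDD.Udelta (p k) Fb hr dl hdl _
      (fun e => (eps0_totalDegree _).trans (hA t e)) Q hQ
  calc Q ^ l0 * ((1 - Q) ^ (Fintype.card Xt + 1) *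
      ∑' l : ℕ, Q ^ l * (Module.finrank K
        (Pool.SDD.Wl (fun c => coeff (yk c) (Th K Xt Yt Φ)) l) : ℝ≥0∞))
      ≤ Q ^ l0 * ((1 - Q) ^ (Fintype.card Xt + 1) *
        ∑' l : ℕ, Q ^ l * ((∑ t, Module.finrank K (Pool.SDD.Wl (g t) (l + l0)) : ℕ) : ℝ≥0∞)) := by
        gcongr with l
        exact hrank l
    _ = ∑ t, (1 - Q) ^ (Fintype.card Xt + 1) * (Q ^ l0 *
        ∑' l : ℕ, Q ^ l * (Module.finrank K (Pool.SDD.Wl (g t) (l + l0)) : ℝ≥0∞)) := by
        rw [← Finset.mul_sum, ← Finset.mul_sum, mul_left_comm]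
        congr 2
        rw [← Summable.tsum_finsetSum (fun t _ => ENNReal.summable)]
        refine tsum_congr fun l => ?_
        rw [Nat.cast_sum, Finset.mul_sum]
    _ ≤ ∑ t, (1 - Q) ^ (Fintype.card Xt + 1) *
        ∑' l : ℕ, Q ^ l * (Module.finrank K (Pool.SDD.Wl (g t) l) : ℝ≥0∞) := by
        gcongr with t
        exact Pool.SDD.series_shift (fun l => Module.finrank K (Pool.SDD.Wl (g t) l)) l0 Q
    _ ≤ ∑ _t : S, ∑ j : ι k, (1 - Q ^ dl) ^ (Fb j).card :=
        Finset.sum_le_sum fun t _ => hU t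
    _ = Fintype.card S * ∑ j : ι k, (1 - Q ^ dl) ^ (Fb j).card := by
        rw [Finset.sum_const, Finset.card_univ, nsmul_eq_mul]

end tower

/-! ### sums of functions of Pfaffians -/

section
variable {F : Type} [Field F] {V Ya : Type}

/-- `f` is a sum of `T` products of a polynomial of degree at most `ν` and a polynomial of degree
at most `e` in `a` Pfaffians of order at most `2 m` with entries of degree at most `δ`; degrees in
the variables `V` only; the coefficients of the outer polynomials are polynomials in `Ya` -/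
def IsFunSum [Fintype V] (T a e m δ ν : ℕ) (f : MvPolynomial (V ⊕ Ya) F) : Prop :=
  ∃ (s : Fin T → Fin a → ℕ) (R : Fin T → MvPolynomial (V ⊕ Ya) F)
    (P : Fin T → MvPolynomial (Fin a) (MvPolynomial Ya F))
    (A : ∀ t i, Matrix (Fin (2 * s t i)) (Fin (2 * s t i)) (MvPolynomial (V ⊕ Ya) F)),
    (∀ t i, s t i ≤ m) ∧ (∀ t, ∀ μ ∈ (R t).support, ∑ x, μ (Sum.inl x) ≤ ν) ∧
    (∀ t, (P t).totalDegree ≤ e) ∧
    (∀ t i p q, ∀ μ ∈ (A t i p q).support, ∑ x, μ (Sum.inl x) ≤ δ) ∧
    f = ∑ t, R t * eval₂ (rename Sum.inr : MvPolynomial Ya F →ₐ[F] MvPolynomial (V ⊕ Ya) F).toRingHom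
      (fun i => pf (s t i) (A t i)) (P t)

theorem degree_expo_le {a d : ℕ} (x : Sym (Option (Fin a)) d) : (Pool.FD.expo x).degree ≤ d := by
  classical
  rw [Finsupp.degree_eq_sum]
  have h1 : ∑ o : Option (Fin a), x.1.count o = d := by
    have h2 := Multiset.sum_count_eq_card (s := (Finset.univ : Finset (Option (Fin a)))) (m := x.1)
      (fun _ _ => Finset.mem_univ _)
    rw [h2]
    exact x.2
  rw [Fintype.sum_option] at h1
  have h3 : ∑ i, (Pool.FD.expo x) i = ∑ i : Fin a, x.1.count (some i) := rfl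
  omega

theorem Psi_rename_inr {Q : Type} (κ : V → Option (Option Q)) (p : MvPolynomial Ya F) :
    Psi F (ext Ya κ) (rename Sum.inr p) =
      C (algebraMap (MvPolynomial (V ⊕ Ya) F) (Lf F (V ⊕ Ya)) (rename Sum.inr p)) := by
  have h : (Psi F (ext Ya κ)).comp
      (rename Sum.inr : MvPolynomial Ya F →ₐ[F] MvPolynomial (V ⊕ Ya) F).toRingHom =
      (C : Lf F (V ⊕ Ya) →+* MvPolynomial Q (Lf F (V ⊕ Ya))).comp
        ((algebraMap (MvPolynomial (V ⊕ Ya) F) (Lf F (V ⊕ Ya))).comp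
          (rename Sum.inr : MvPolynomial Ya F →ₐ[F] MvPolynomial (V ⊕ Ya) F).toRingHom) := by
    refine MvPolynomial.ringHom_ext (fun r => ?_) (fun y => ?_)
    · simp [Psi]
    · have h1 : Psi F (CDET.ext Ya κ) (X (Sum.inr y)) =
          C (algebraMap (MvPolynomial (V ⊕ Ya) F) (Lf F (V ⊕ Ya)) (X (Sum.inr y))) := by
        rw [Psi, coe_eval₂Hom, eval₂_X]
        rfl
      have h2 : (rename Sum.inr : MvPolynomial Ya F →ₐ[F] MvPolynomial (V ⊕ Ya) F).toRingHom
          (X y) = X (Sum.inr y) := rename_X _ _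
      rw [RingHom.comp_apply, RingHom.comp_apply, RingHom.comp_apply, h2, h1]
  exact congrArg (fun g : MvPolynomial Ya F →+* MvPolynomial Q (Lf F (V ⊕ Ya)) => g p) h

theorem smallG_fun [DecidableEq V] [Fintype V] {T a e m δ ν D M : ℕ} (hM : m * min e D ≤ M)
    (hD : D < M) (hδ : 1 ≤ δ)
    (f : MvPolynomial (V ⊕ Ya) F) (hf : IsFunSum T a e m δ ν f) (Q : ℝ≥0∞) (hQ : Q < 1) :
    SmallG f D (ν + D * (δ - 1)) Q (((T * (a + min e D).choose (min e D) : ℕ) : ℝ≥0∞) *
      ∑ j ∈ Finset.range (2 * D + 1),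
      (Nat.choose (2 * (M - D) - 1 + j) j : ℝ≥0∞) * (1 - Q ^ δ) ^ j) := by
  classical
  obtain ⟨s, R, P, A, hs, hR, hP, hA, hfA⟩ := hf
  intro Xt Yt C' _ _ κ yk hyk
  obtain ⟨k, hk⟩ : ∃ k, k = M - D := ⟨_, rfl⟩
  have hkD : k + D = M := by omega
  set d := min e D with hd
  set ψ := Psi F (CDET.ext Ya κ) with hψ
  set th := Th (Lf F (V ⊕ Ya)) Xt Yt with hth
  have hRd : ∀ t, (ψ (R t)).totalDegree ≤ ν := fun t =>
    totalDegree_Psi_le _ _ _ fun μ hμ => (degree_push_le κ μ).trans (hR t μ hμ)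
  have hpf : ∀ t i, IsPfm m δ (ψ (pf (s t i) (A t i))) := by
    intro t i
    refine ⟨s t i, hs t i, (A t i).map ψ, fun p q => ?_, Pool.PF.map_pf _ _ _⟩
    exact totalDegree_Psi_le _ _ _ fun μ hμ => (degree_push_le κ μ).trans (hA t i p q μ hμ)
  -- the outer polynomials
  set φ : MvPolynomial Ya F →+* MvPolynomial Xt (Lf F (V ⊕ Ya)) :=
    (C : Lf F (V ⊕ Ya) →+* MvPolynomial Xt (Lf F (V ⊕ Ya))).comp
      ((algebraMap (MvPolynomial (V ⊕ Ya) F) (Lf F (V ⊕ Ya))).comp
        (rename Sum.inr : MvPolynomial Ya F →ₐ[F] MvPolynomial (V ⊕ Ya) F).toRingHom) with hφ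
  have hT : ∀ t, th (ψ (eval₂ (rename Sum.inr : MvPolynomial Ya F →ₐ[F]
      MvPolynomial (V ⊕ Ya) F).toRingHom (fun i => pf (s t i) (A t i)) (P t))) =
      eval₂ C (fun i => th (ψ (pf (s t i) (A t i)))) (MvPolynomial.map φ (P t)) := by
    intro t
    rw [eval₂_map]
    have h1 := hom_eval₂ (P t) ((rename Sum.inr : MvPolynomial Ya F →ₐ[F]
      MvPolynomial (V ⊕ Ya) F).toRingHom) ((th : MvPolynomial (Xt ⊕ Yt) (Lf F (V ⊕ Ya)) →+*
        MvPolynomial Yt (MvPolynomial Xt (Lf F (V ⊕ Ya)))).comp ψ) (fun i => pf (s t i) (A t i))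
    refine Eq.trans h1 ?_
    refine congrArg (fun g => eval₂ g _ _) (RingHom.ext fun p => ?_)
    show th (ψ (rename Sum.inr p)) = C (φ p)
    rw [hψ, Psi_rename_inr, hφ]
    show th (C _) = C (C _)
    rw [hth]
    have h2 := (Th (Lf F (V ⊕ Ya)) Xt Yt).commutes
      (algebraMap (MvPolynomial (V ⊕ Ya) F) (Lf F (V ⊕ Ya)) (rename Sum.inr p))
    exact h2
  have hdeg : ∀ t, (MvPolynomial.map φ (P t)).totalDegree ≤ e := fun t =>
    (Finset.sup_mono (support_map_subset _ _)).trans (hP t)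
  choose q hq1 hq2 using fun t => taylor_min (Y := Yt) D e (MvPolynomial.map φ (P t)) (hdeg t)
    (fun i => coeff 0 (th (ψ (pf (s t i) (A t i)))))
  -- the Pfaffians
  have hpr : ∀ (t : Fin T) (x : Sym (Option (Fin a)) d), IsPfm M δ
      (∏ i, ψ (pf (s t i) (A t i)) ^ Pool.FD.expo x i) := by
    intro t x
    have h1 := IsPfm.prod Finset.univ (fun i => ψ (pf (s t i) (A t i)))
      (fun i => Pool.FD.expo x i) (hpf t)
    rw [← Finsupp.degree_eq_sum] at h1
    refine h1.mono (le_trans ?_ hM)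
    rw [Nat.mul_comm]
    exact Nat.mul_le_mul_left m (degree_expo_le x)
  have hB : ∀ z : Fin T × Sym (Option (Fin a)) d, ∃ B : Cell (2 * M) → MvPolynomial (Xt ⊕ Yt)
      (Lf F (V ⊕ Ya)), (∀ c, (B c).totalDegree ≤ δ) ∧
      (∏ i, ψ (pf (s z.1 i) (A z.1 i)) ^ Pool.FD.expo z.2 i) =
        aeval B (gpf (Lf F (V ⊕ Ya)) (id : Cell (2 * M) → Cell (2 * M)) M id) := by
    intro z
    obtain ⟨s', hs', A', hA', h1⟩ := hpr z.1 z.2
    obtain ⟨B, hB1, hB2⟩ := Pool.PF.exists_aeval hs' δ A' hA'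
    exact ⟨B, hB1, h1.trans hB2⟩
  choose B hB1 hB2 using hB
  have h := tower_boundH (K := Lf F (V ⊕ Ya)) (Pool.PF.pfam (Lf F (V ⊕ Ya)) (2 * M))
    Pool.PF.pfam_tower (fun k i e => Pool.PF.pfam_degreeOf k i e) (k := k) (D := D) (nu := ν) hδ
    Pool.PF.forb (Pool.PF.pfam_reduces k) (ψ f)
    (fun z : Fin T × Sym (Option (Fin a)) d => coeff (Pool.FD.expo z.2) (q z.1))
    (fun z => ψ (R z.1) * ∏ i, ψ (pf (s z.1 i) (A z.1 i)) ^ Pool.FD.expo z.2 i)
    (by
      intro η hη
      rw [hfA, map_sum, map_sum, coeff_sum]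
      refine Submodule.sum_mem _ fun t _ => ?_
      have h1 := hq2 t (fun i => th (ψ (pf (s t i) (A t i)))) (fun i => rfl)
      have h2 : Ord (0 + (D + 1)) (th (ψ (R t)) * (eval₂ C (fun i => th (ψ (pf (s t i) (A t i))))
          (MvPolynomial.map φ (P t)) - eval₂ C (fun i => th (ψ (pf (s t i) (A t i)))) (q t))) :=
        Ord.mul (fun κ hκ => absurd hκ (Nat.not_lt_zero _)) h1
      have h3 := h2 η (by omega)
      rw [mul_sub, coeff_sub, sub_eq_zero] at h3
      rw [map_mul, map_mul, hT t]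
      refine (congrArg (fun g => g ∈ _) h3).mpr ?_
      rw [eval₂_eq', Finset.mul_sum, coeff_sum]
      refine Submodule.sum_mem _ fun β hβ => ?_
      have h4 : th (ψ (R t)) * (C (coeff β (q t)) * ∏ i, th (ψ (pf (s t i) (A t i))) ^ β i) =
          C (coeff β (q t)) * th (ψ (R t) * ∏ i, ψ (pf (s t i) (A t i)) ^ β i) := by
        rw [map_mul, map_prod]
        simp only [map_pow]
        ring
      rw [h4, coeff_C_mul]
      refine Submodule.subset_span ⟨(t, Pool.FD.indx β (hq1 t β hβ)), ?_⟩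
      simp only [Pool.FD.expo_indx]
      rfl)
    B hB1
    (by
      intro z
      have h0 : aeval (B z) (Pool.PF.pfam (Lf F (V ⊕ Ya)) (2 * M) M (RelEmbedding.refl _)) ∈
          Pool.SDD.Wl (fun j => aeval (B z) (Pool.PF.pfam (Lf F (V ⊕ Ya)) (2 * M) M j)) 0 :=
        Submodule.subset_span ⟨0, RelEmbedding.refl _, by simp, by simp⟩
      have h1 := Pool.SDD.mul_mem_Wl (hRd z.1) h0
      rw [Nat.add_zero] at h1
      rw [hkD, hB2 z]
      exact h1)
    yk hyk Q hQ
  refine h.trans ?_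
  have hcard : Fintype.card (Fin T × Sym (Option (Fin a)) d) = T * (a + d).choose d :=
    Pool.FD.card_index T a d
  rw [hcard]
  gcongr
  refine (Pool.PF.sum_pow_card_forb_le (by omega) _).trans (le_of_eq ?_)
  rw [hk, show 2 * M - 2 * (M - D) + 1 = 2 * D + 1 by omega]

/-- **Sums of functions of Pfaffians have small shifted spaces.** -/
theorem smallK_fun [DecidableEq V] [Fintype V] {T a e m δ ν D M : ℕ} (hM : m * min e D ≤ M)
    (hD : D < M) (hδ : 1 ≤ δ)
    (f : MvPolynomial (V ⊕ Ya) F) (hf : IsFunSum T a e m δ ν f) (Q : ℝ≥0∞) (hQ : Q < 1) :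
    Pool.RT.SmallK f D (ν + D * (δ - 1)) Q
      (((T * (a + min e D).choose (min e D) : ℕ) : ℝ≥0∞) * ∑ j ∈ Finset.range (2 * D + 1),
      (Nat.choose (2 * (M - D) - 1 + j) j : ℝ≥0∞) * (1 - Q ^ δ) ^ j) := by
  classical
  intro Xt Yt C _ _ κ yk hyk
  refine ⟨Empty, inferInstance, ?_⟩
  refine le_trans ?_ (smallG_fun hM hD hδ f hf Q hQ Xt Yt C κ yk hyk)
  rw [Fintype.card_eq_zero (α := Empty), Nat.add_zero]
  refine mul_le_mul' le_rfl (mul_le_mul' le_rfl (ENNReal.tsum_le_tsum fun l => ?_))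
  exact mul_le_mul' le_rfl (Nat.cast_le.2 (finrank_empty _ l))

end

end Pool.FunK
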